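import Pool.Agent.H385E.Fin2

/-!
# MP_2de571_an, class (a): uniqueness with one measurement for ellipses whose star lies in `Ω`

For an open ellipse `E` with foci `p ≠ q` and semi-axes `a > b` let `c = |p - q| / 2` and let `E*`
be the closed confocal ellipse with semi-axes `(a ^ 2 + b ^ 2) / c` and `2 * a * b / c`.
Two ellipses with `E* ⊆ Ω`, with the same conductivity `k` and the same single measurement
`(g, u|∂Ω)`, `g ≠ 0`, coincide.  Centres, directions, eccentricities and sizes are arbitrary.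
-/

open MeasureTheory Metric Set
open Pool.Agent.H385 Pool.Agent.H385E

namespace Pool.Agent.Results.MP_2de571_an.DeepEllipse

/-- `E` is an open ellipse `|z - p| + |z - q| < s` with distinct foci `p`, `q` (so that the
semi-axes are `a = s / 2`, `b ^ 2 = a ^ 2 - c ^ 2`, with `c = |p - q| / 2`), and the closed
confocal ellipse `|z - p| + |z - q| ≤ 2 * s ^ 2 / |p - q| - |p - q| = 2 * (a ^ 2 + b ^ 2) / c` is
contained in `Ω`. -/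
def IsDeepEllipse (Ω E : Set ℂ) : Prop :=
  ∃ (p q : ℂ) (s : ℝ), p ≠ q ∧ ‖p - q‖ < s ∧ E = {z | ‖z - p‖ + ‖z - q‖ < s} ∧
    {z | ‖z - p‖ + ‖z - q‖ ≤ 2 * s ^ 2 / ‖p - q‖ - ‖p - q‖} ⊆ Ω

theorem result (Ω : Set ℂ) (hΩ : IsOpen Ω) (hb : Bornology.IsBounded Ω) (hc : IsConnected Ω)
    (k : ℝ) (hk : 0 < k) (hk1 : k ≠ 1) (g : ℂ → ℝ)
    (hg : IntegrableOn g (frontier Ω) (Measure.hausdorffMeasure 1))
    (hg0 : ¬ g =ᵐ[(Measure.hausdorffMeasure 1).restrict (frontier Ω)] 0)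
    (E₁ E₂ : Set ℂ) (hE₁ : IsDeepEllipse Ω E₁) (hE₂ : IsDeepEllipse Ω E₂)
    (u₁ u₂ : ℂ → ℝ) (G₁ G₂ : ℂ → ℂ) (h₁ : IsSolution Ω k E₁ g u₁ G₁)
    (h₂ : IsSolution Ω k E₂ g u₂ G₂) (hT : SameTrace Ω u₁ G₁ u₂ G₂) : E₁ = E₂ := by
  obtain ⟨p₁, q₁, s₁, hpq₁, hs₁, rfl, hd₁⟩ := hE₁
  obtain ⟨p₂, q₂, s₂, hpq₂, hs₂, rfl, hd₂⟩ := hE₂
  exact main_A hΩ hb hc.isPreconnected hk hk1 hg hg0 hpq₁ hpq₂ hs₁ hs₂ hd₁ hd₂ h₁ h₂ hT

end Pool.Agent.Results.MP_2de571_an.DeepEllipse
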