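import Pool.Agent.H385E.Fin2

/-!
# MP_2de571_an, class (a): every body with the same measurement contains the focal segment

Let `E` be an open ellipse with foci `p ≠ q` whose star `E*` (the closed confocal ellipse with
semi-axes `(a ^ 2 + b ^ 2) / c`, `2 * a * b / c`) lies in `Ω`, with conductivity `k`, and let `D` be
any set, compactly contained in `Ω`, filled with an arbitrary material.  If one nonzero Neumann
datum `g` gives the same Dirichlet datum for both, then the closure of `D` contains the segment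
between the foci of `E`.
-/

open MeasureTheory Metric Set
open Pool.Agent.H385 Pool.Agent.H385E

namespace Pool.Agent.Results.MP_2de571_an.FocalSegment

theorem result (Ω : Set ℂ) (hΩ : IsOpen Ω) (hb : Bornology.IsBounded Ω) (hc : IsConnected Ω)
    (k : ℝ) (hk : 0 < k) (hk1 : k ≠ 1) (g : ℂ → ℝ)
    (hg : IntegrableOn g (frontier Ω) (Measure.hausdorffMeasure 1))
    (hg0 : ¬ g =ᵐ[(Measure.hausdorffMeasure 1).restrict (frontier Ω)] 0)
    (p q : ℂ) (s : ℝ) (hpq : p ≠ q) (hs : ‖p - q‖ < s)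
    (hE : {z : ℂ | ‖z - p‖ + ‖z - q‖ ≤ 2 * s ^ 2 / ‖p - q‖ - ‖p - q‖} ⊆ Ω)
    (D : Set ℂ) (hD : closure D ⊆ Ω) (hconn : IsConnected (segment ℝ p q ∪ closure D)ᶜ)
    (u₁ u₂ : ℂ → ℝ) (G₁ G₂ V₂ : ℂ → ℂ)
    (h₁ : IsSolution Ω k {z | ‖z - p‖ + ‖z - q‖ < s} g u₁ G₁)
    (h₂ : IsBodySolution Ω D g u₂ G₂ V₂) (hT : SameTrace Ω u₁ G₁ u₂ G₂) :
    segment ℝ p q ⊆ closure D :=
  main_B hΩ hb hc.isPreconnected hk hk1 hg hg0 hpq hs hE hD hconn.isPreconnected h₁ h₂ hT

end Pool.Agent.Results.MP_2de571_an.FocalSegment
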