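import Pool.Agent.H385.Final

/-!
# MP_2de571_an, class (c): global uniqueness with one measurement for multiple disks in the plane

Two multi-disks (finite unions of open disks with pairwise disjoint closures, compactly contained
in the simply connected bounded domain `Ω`) with the same conductivity `k` and the same single
measurement `(g, u|∂Ω)`, `g ≠ 0`, coincide.
-/

open MeasureTheory Metric Set
open Pool.Agent.H385

namespace Pool.Agent.Results.MP_2de571_an.MultiDisk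

/-- `D` is a multi-disk in `Ω`: a finite union of open disks whose closures are pairwise disjoint
and contained in `Ω`. -/
def IsMultiDisk (Ω D : Set ℂ) : Prop :=
  ∃ (n : ℕ) (a : Fin n → ℂ) (r : Fin n → ℝ), (∀ i, 0 < r i) ∧
    (∀ i j, i ≠ j → Disjoint (closedBall (a i) (r i)) (closedBall (a j) (r j))) ∧
    (∀ i, closedBall (a i) (r i) ⊆ Ω) ∧ D = ⋃ i, ball (a i) (r i)

theorem result (Ω : Set ℂ) (hΩ : IsOpen Ω) (hb : Bornology.IsBounded Ω) (hc : IsConnected Ω)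
    (hcc : IsConnected Ωᶜ) (k : ℝ) (hk : 0 < k) (hk1 : k ≠ 1) (g : ℂ → ℝ)
    (hg : IntegrableOn g (frontier Ω) (Measure.hausdorffMeasure 1))
    (hg0 : ¬ g =ᵐ[(Measure.hausdorffMeasure 1).restrict (frontier Ω)] 0)
    (D₁ D₂ : Set ℂ) (hD₁ : IsMultiDisk Ω D₁) (hD₂ : IsMultiDisk Ω D₂)
    (u₁ u₂ : ℂ → ℝ) (G₁ G₂ : ℂ → ℂ) (h₁ : IsSolution Ω k D₁ g u₁ G₁)
    (h₂ : IsSolution Ω k D₂ g u₂ G₂) (hT : SameTrace Ω u₁ G₁ u₂ G₂) : D₁ = D₂ := by
  obtain ⟨n, a, r, hr, ha, haΩ, rfl⟩ := hD₁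
  obtain ⟨m, c, s, hs, hd, hcΩ, rfl⟩ := hD₂
  exact main_indexed hΩ hb hc.isPreconnected hcc.isPreconnected hk hk1 hg hg0 hr hs ha hd haΩ hcΩ
    h₁ h₂ hT

end Pool.Agent.Results.MP_2de571_an.MultiDisk
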